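import Pool.Agent.H78.UC.La

/-!
# MP_75f39d_co, T5* (note `/team-store/H78_T5star.md`): the reduction to the exits of a down-set

`B` is a union-closed family of subsets of `S`, `E` a family such that `T ∪ w ∈ B` for `T ∈ E`,
`w ∈ B` (in the application: the members inside `S`).
-/

set_option autoImplicit false

namespace Pool.Agent.H78.UC

open Finset

variable {α : Type*} [DecidableEq α]

/-- The union of the members of `B` inside `X`. -/
def pm (B : Finset (Finset α)) (X : Finset α) : Finset α := (B.filter (· ⊆ X)).sup id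

/-- `B` is union-closed. -/
def UnC (B : Finset (Finset α)) : Prop := ∀ s ∈ B, ∀ t ∈ B, s ∪ t ∈ B

theorem pm_sub {B : Finset (Finset α)} {X : Finset α} : pm B X ⊆ X :=
  Finset.sup_le fun _ hw => (mem_filter.mp hw).2

theorem le_pm {B : Finset (Finset α)} {X w : Finset α} (hw : w ∈ B) (h : w ⊆ X) : w ⊆ pm B X :=
  Finset.le_sup (f := id) (mem_filter.mpr ⟨hw, h⟩)

theorem pm_mem {B : Finset (Finset α)} (hB : UnC B) {X w : Finset α} (hw : w ∈ B) (h : w ⊆ X) :
    pm B X ∈ B := by
  have hne : (B.filter (· ⊆ X)).Nonempty := ⟨w, mem_filter.mpr ⟨hw, h⟩⟩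
  have := Finset.sup'_mem (s := (↑B : Set (Finset α))) (fun x hx y hy => hB x hx y hy)
    (B.filter (· ⊆ X)) hne id (fun x hx => (mem_filter.mp hx).1)
  rw [Finset.sup'_eq_sup] at this
  exact this

theorem pm_eq {B : Finset (Finset α)} {X W : Finset α} (hW : W ∈ B) (hWX : W ⊆ X)
    (hmax : ∀ w ∈ B, w ⊆ X → w ⊆ W) : pm B X = W :=
  subset_antisymm (Finset.sup_le fun w hw => hmax w (mem_filter.mp hw).1 (mem_filter.mp hw).2)
    (le_pm hW hWX)

/-- The members without `i` that are not members any more after adding `i`. -/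
def Ni (B : Finset (Finset α)) (i : α) : Finset (Finset α) :=
  B.filter fun w => i ∉ w ∧ insert i w ∉ B

/-- No member of `B` or `E` inside `Y ∪ {i}` contains `i`. -/
def DD (B E : Finset (Finset α)) (i : α) (Y : Finset α) : Prop :=
  ∀ T ∈ B ∪ E, i ∈ T → ¬ T ⊆ insert i Y

instance (B E : Finset (Finset α)) (i : α) : DecidablePred (DD B E i) := fun _ => by
  unfold DD; infer_instance

theorem DD.anti {B E : Finset (Finset α)} {i : α} {Y Z : Finset α} (h : DD B E i Z) (hYZ : Y ⊆ Z) :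
    DD B E i Y := fun T hT hi hsub => h T hT hi (hsub.trans (insert_subset_insert i hYZ))

/-- The size of the fibre of `W`. -/
def cc (B E : Finset (Finset α)) (S : Finset α) (i : α) (W : Finset α) : ℕ :=
  ((S.erase i).powerset.filter fun Y => DD B E i Y ∧ pm B Y = W).card

/-- The number of subsets of `S` whose largest member is `T`. -/
def CC (B : Finset (Finset α)) (S T : Finset α) : ℕ := (S.powerset.filter fun X => pm B X = T).card

/-- The pairs `(T, j)` with `j ∈ T ∈ B` and `T - j ∉ B`. -/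
def bad (B : Finset (Finset α)) (S : Finset α) : Finset (Finset α × α) :=
  (B ×ˢ S).filter fun p => p.2 ∈ p.1 ∧ p.1.erase p.2 ∉ B

/-- The largest member inside `T - j`. -/
def bs (B : Finset (Finset α)) (p : Finset α × α) : Finset α := pm B (p.1.erase p.2)

/-- The points of `T - j` outside its largest member. -/
def KK (B : Finset (Finset α)) (p : Finset α × α) : Finset α := (p.1.erase p.2) \ bs B p

/-- The bad pairs `(T, j)` with `i ∈ K (T - j)`. -/
def Pi (B : Finset (Finset α)) (S : Finset α) (i : α) : Finset (Finset α × α) :=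
  (bad B S).filter fun p => i ∈ KK B p

/-- The part of the down-set above a member of `F`. -/
def XF (B E : Finset (Finset α)) (S : Finset α) (i : α) (F : Finset (Finset α)) :
    Finset (Finset α) :=
  (S.erase i).powerset.filter fun Y => DD B E i Y ∧ ∃ w ∈ F, w ⊆ Y

/-- The exits at `Y`. -/
def exs (B E : Finset (Finset α)) (S : Finset α) (i : α) (Y : Finset α) : Finset α :=
  ((S.erase i) \ Y).filter fun j => ¬ DD B E i (insert j Y)

theorem pm_mem_F {B E : Finset (Finset α)} {S : Finset α} {i : α} (hB : UnC B)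
    {F : Finset (Finset α)} (hF : F ⊆ Ni B i)
    (hup : ∀ w ∈ F, ∀ y ∈ Ni B i, w ⊆ y → y ∈ F) {Y : Finset α} (hY : Y ∈ XF B E S i F) :
    pm B Y ∈ F := by
  obtain ⟨hYS, hD, w, hw, hwY⟩ := mem_filter.mp hY
  have hwB : w ∈ B := (mem_filter.mp (hF hw)).1
  have hpB : pm B Y ∈ B := pm_mem hB hwB hwY
  have hiY : i ∉ Y := fun h => notMem_erase i S (mem_powerset.mp hYS h)
  refine hup w hw _ (mem_filter.mpr ⟨hpB, fun h => hiY (pm_sub h), fun h => ?_⟩) (le_pm hwB hwY)
  exact hD _ (mem_union_left _ h) (mem_insert_self _ _) (insert_subset_insert i pm_sub)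

/-- The fibres over `F` decompose the part of the down-set above `F`. -/
theorem card_XF {B E : Finset (Finset α)} {S : Finset α} {i : α} (hB : UnC B)
    {F : Finset (Finset α)} (hF : F ⊆ Ni B i)
    (hup : ∀ w ∈ F, ∀ y ∈ Ni B i, w ⊆ y → y ∈ F) :
    (XF B E S i F).card = ∑ W ∈ F, cc B E S i W := by
  rw [card_eq_sum_card_fiberwise (f := pm B) (t := F) (fun Y hY => pm_mem_F hB hF hup hY)]
  refine sum_congr rfl fun W hW => ?_
  rw [cc, XF, filter_filter]
  congr 1
  ext Y
  simp only [mem_filter]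
  constructor
  · rintro ⟨h1, ⟨h2, _⟩, h3⟩
    exact ⟨h1, h2, h3⟩
  · rintro ⟨h1, h2, h3⟩
    exact ⟨h1, ⟨h2, W, hW, h3 ▸ pm_sub⟩, h3⟩

/-- What an exit looks like. -/
theorem exit_fact {B E : Finset (Finset α)} {S : Finset α} {i : α} (hB : UnC B)
    (hE : ∀ T ∈ E, ∀ w ∈ B, T ∪ w ∈ B)
    {F : Finset (Finset α)} (hF : F ⊆ Ni B i)
    (hup : ∀ w ∈ F, ∀ y ∈ Ni B i, w ⊆ y → y ∈ F) {Y : Finset α} (hY : Y ∈ XF B E S i F)
    {j : α} (hj : j ∈ exs B E S i Y) :
    (pm B (insert i (insert j Y)), j) ∈ Pi B S i ∧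
      bs B (pm B (insert i (insert j Y)), j) ∈ F := by
  have hW := pm_mem_F hB hF hup hY
  obtain ⟨hYS, hD, -⟩ := mem_filter.mp hY
  obtain ⟨hj1, hj2⟩ := mem_filter.mp hj
  obtain ⟨hjS, hjY⟩ := mem_sdiff.mp hj1
  have hji : j ≠ i := ne_of_mem_erase hjS
  have hiY : i ∉ Y := fun h => notMem_erase i S (mem_powerset.mp hYS h)
  have hWB : pm B Y ∈ B := (mem_filter.mp (hF hW)).1
  have hiW : i ∉ pm B Y := fun h => hiY (pm_sub h)
  unfold DD at hj2
  push Not at hj2
  obtain ⟨T0, hT0, hiT0, hT0s⟩ := hj2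
  have hT1 : T0 ∪ pm B Y ∈ B := by
    rcases mem_union.mp hT0 with h | h
    · exact hB _ h _ hWB
    · exact hE _ h _ hWB
  have hYX : Y ⊆ insert i (insert j Y) :=
    (subset_insert j Y).trans (subset_insert i _)
  have hT1s : T0 ∪ pm B Y ⊆ insert i (insert j Y) := union_subset hT0s (pm_sub.trans hYX)
  set T := pm B (insert i (insert j Y)) with hT
  have hTB : T ∈ B := pm_mem hB hT1 hT1s
  have hT1T : T0 ∪ pm B Y ⊆ T := le_pm hT1 hT1s
  have hiT : i ∈ T := hT1T (mem_union_left _ hiT0)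
  have hTX : T ⊆ insert i (insert j Y) := pm_sub
  have hTe : T.erase j ⊆ insert i Y := by
    intro a ha
    have h1 := hTX (mem_of_mem_erase ha)
    have h2 := ne_of_mem_erase ha
    simp only [mem_insert] at h1 ⊢
    tauto
  have hjT : j ∈ T := by
    by_contra h
    rw [erase_eq_of_notMem h] at hTe
    exact hD T (mem_union_left _ hTB) hiT hTe
  have hieT : i ∈ T.erase j := mem_erase.mpr ⟨fun h => hji h.symm, hiT⟩
  have hTeB : T.erase j ∉ B := fun h => hD _ (mem_union_left _ h) hieT hTe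
  have hbs : bs B (T, j) = pm B Y := by
    refine pm_eq hWB ?_ ?_
    · intro a ha
      exact mem_erase.mpr ⟨fun h => hjY ((show a = j from h) ▸ pm_sub ha),
        hT1T (mem_union_right _ ha)⟩
    · intro w hw hwT
      have hiw : i ∉ w := fun h => hD w (mem_union_left _ hw) h (hwT.trans hTe)
      refine le_pm hw fun a ha => ?_
      have := hTe (hwT ha)
      rcases mem_insert.mp this with h | h
      · exact absurd (h ▸ ha) hiw
      · exact h
  refine ⟨mem_filter.mpr ⟨mem_filter.mpr ⟨mem_product.mpr ⟨hTB, mem_of_mem_erase hjS⟩,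
    hjT, hTeB⟩, ?_⟩, ?_⟩
  · show i ∈ (T.erase j) \ bs B (T, j)
    rw [hbs]
    exact mem_sdiff.mpr ⟨hieT, hiW⟩
  · rw [hbs]
    exact hW

/-- The exits of the part above `F` are at most the total fibre size of the bad pairs over `F`. -/
theorem sum_exits_le {B E : Finset (Finset α)} {S : Finset α} {i : α} (hB : UnC B)
    (hE : ∀ T ∈ E, ∀ w ∈ B, T ∪ w ∈ B) (hi : i ∈ S)
    {F : Finset (Finset α)} (hF : F ⊆ Ni B i)
    (hup : ∀ w ∈ F, ∀ y ∈ Ni B i, w ⊆ y → y ∈ F) :
    ∑ Y ∈ XF B E S i F, (exs B E S i Y).card ≤ ∑ p ∈ Pi B S i with bs B p ∈ F, CC B S p.1 := by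
  rw [← card_sigma]
  rw [card_eq_sum_card_fiberwise (f := fun q : (_ : Finset α) × α =>
    (pm B (insert i (insert q.2 q.1)), q.2)) (t := (Pi B S i).filter fun p => bs B p ∈ F)
    (by
      intro q hq
      obtain ⟨hY, hj⟩ := mem_sigma.mp hq
      have := exit_fact hB hE hF hup hY hj
      exact mem_coe.mpr (mem_filter.mpr this))]
  refine sum_le_sum fun p _ => ?_
  refine card_le_card_of_injOn (fun q => insert i (insert q.2 q.1)) ?_ ?_
  · intro q hq
    obtain ⟨hq1, hq2⟩ := mem_filter.mp hq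
    obtain ⟨hY, hj⟩ := mem_sigma.mp hq1
    obtain ⟨hYS, -, -⟩ := mem_filter.mp hY
    obtain ⟨hjS, hjY⟩ := mem_sdiff.mp (mem_filter.mp hj).1
    refine mem_coe.mpr (mem_filter.mpr ⟨mem_powerset.mpr ?_, ?_⟩)
    · refine insert_subset hi (insert_subset (mem_of_mem_erase hjS) ?_)
      exact (mem_powerset.mp hYS).trans (erase_subset _ _)
    · rw [← hq2]
  · intro q hq q' hq' h
    obtain ⟨hq1, hq2⟩ := mem_filter.mp hq
    obtain ⟨hq1', hq2'⟩ := mem_filter.mp hq'
    obtain ⟨hY, hj⟩ := mem_sigma.mp hq1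
    obtain ⟨hY', hj'⟩ := mem_sigma.mp hq1'
    have hYS := mem_powerset.mp (mem_filter.mp hY).1
    have hYS' := mem_powerset.mp (mem_filter.mp hY').1
    obtain ⟨hjS, hjY⟩ := mem_sdiff.mp (mem_filter.mp hj).1
    obtain ⟨hjS', hjY'⟩ := mem_sdiff.mp (mem_filter.mp hj').1
    have e2 : q.2 = q'.2 := by
      have h1 : q.2 = p.2 := by rw [← hq2]
      have h2 : q'.2 = p.2 := by rw [← hq2']
      rw [h1, h2]
    have hr : ∀ (Y : Finset α) (j : α), Y ⊆ S.erase i → j ∈ S.erase i → j ∉ Y →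
        ((insert i (insert j Y)).erase i).erase j = Y := by
      intro Y j hY hj hjY
      have hiY : i ∉ insert j Y := by
        rw [mem_insert]
        rintro (h | h)
        · exact ne_of_mem_erase hj h.symm
        · exact notMem_erase i S (hY h)
      rw [erase_insert hiY, erase_insert hjY]
    have e1 : q.1 = q'.1 := by
      rw [← hr q.1 q.2 hYS hjS hjY, ← hr q'.1 q'.2 hYS' hjS' hjY']
      have h' : insert i (insert q.2 q.1) = insert i (insert q'.2 q'.1) := h
      rw [h', e2]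
    exact Sigma.ext e1 (heq_of_eq e2)

theorem cc_pos {B E : Finset (Finset α)} {S : Finset α} {i : α} (hB : UnC B)
    (hBS : ∀ w ∈ B, w ⊆ S) (hE : ∀ T ∈ E, ∀ w ∈ B, T ∪ w ∈ B) {W : Finset α}
    (hW : W ∈ Ni B i) : 0 < cc B E S i W := by
  obtain ⟨hWB, hiW, hins⟩ := mem_filter.mp hW
  refine card_pos.mpr ⟨W, mem_filter.mpr ⟨mem_powerset.mpr ?_, ?_, ?_⟩⟩
  · exact fun a ha => mem_erase.mpr ⟨fun h => hiW (h ▸ ha), hBS W hWB ha⟩
  · intro T hT hiT hTs
    have h1 : T ∪ W ∈ B := by
      rcases mem_union.mp hT with h | h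
      · exact hB _ h _ hWB
      · exact hE _ h _ hWB
    have h2 : T ∪ W = insert i W := by
      refine subset_antisymm (union_subset hTs (subset_insert _ _)) ?_
      exact insert_subset (mem_union_left _ hiT) subset_union_right
    exact hins (h2 ▸ h1)
  · exact pm_eq hWB (Subset.refl _) fun w _ h => h

theorem cc_anti {B E : Finset (Finset α)} {S : Finset α} {i : α}
    {W W' : Finset α} (hW : W ∈ B) (hWW : W ⊆ W') :
    cc B E S i W' ≤ cc B E S i W := by
  refine card_le_card_of_injOn (fun Y => W ∪ (Y \ W')) ?_ ?_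
  · intro Y hY
    obtain ⟨hYS, hD, hpm⟩ := mem_filter.mp hY
    have hW'Y : W' ⊆ Y := hpm ▸ pm_sub
    have hsub : W ∪ (Y \ W') ⊆ Y := union_subset (hWW.trans hW'Y) sdiff_subset
    refine mem_coe.mpr (mem_filter.mpr ⟨mem_powerset.mpr (hsub.trans (mem_powerset.mp hYS)),
      hD.anti hsub, pm_eq hW subset_union_left ?_⟩)
    intro w hw hws
    have h1 : w ⊆ W' := hpm ▸ le_pm hw (hws.trans hsub)
    intro a ha
    rcases mem_union.mp (hws ha) with h | h
    · exact h
    · exact absurd (h1 ha) (mem_sdiff.mp h).2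
  · intro Y hY Y' hY' h
    have hW'Y : W' ⊆ Y := (mem_filter.mp hY).2.2 ▸ pm_sub
    have hW'Y' : W' ⊆ Y' := (mem_filter.mp hY').2.2 ▸ pm_sub
    have key : ∀ Z : Finset α, W' ⊆ Z → (W ∪ (Z \ W')) \ W' = Z \ W' := by
      intro Z hZ
      ext a
      simp only [mem_sdiff, mem_union]
      constructor
      · rintro ⟨h1 | h1, h2⟩
        · exact absurd (hWW h1) h2
        · exact h1
      · rintro h1
        exact ⟨Or.inr h1, h1.2⟩
    have e : Y \ W' = Y' \ W' := by
      rw [← key Y hW'Y, ← key Y' hW'Y']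
      have h' : W ∪ (Y \ W') = W ∪ (Y' \ W') := h
      rw [h']
    rw [← sdiff_union_of_subset hW'Y, ← sdiff_union_of_subset hW'Y', e]

/-- The fibre of the base point is at least `2 ^ (|K| - 1)` times the fibre of `T`. -/
theorem pow_mul_CC_le {B E : Finset (Finset α)} {S : Finset α} {i : α} (hB : UnC B)
    (hE : ∀ T ∈ E, ∀ w ∈ B, T ∪ w ∈ B) {p : Finset α × α}
    (hp : p ∈ Pi B S i) (hb : bs B p ∈ B) :
    2 ^ ((KK B p).card - 1) * CC B S p.1 ≤ cc B E S i (bs B p) := by
  obtain ⟨hp1, hiK⟩ := mem_filter.mp hp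
  obtain ⟨hp2, hjT, hTe⟩ := mem_filter.mp hp1
  obtain ⟨hTB, hjS⟩ := mem_product.mp hp2
  obtain ⟨hiTe, hiW⟩ := mem_sdiff.mp hiK
  have hiT : i ∈ p.1 := mem_of_mem_erase hiTe
  have hWT : bs B p ⊆ p.1.erase p.2 := pm_sub
  have hKT : KK B p ⊆ p.1.erase p.2 := sdiff_subset
  have hcard : 2 ^ ((KK B p).card - 1) * CC B S p.1 =
      (((KK B p).erase i).powerset ×ˢ (S.powerset.filter fun X => pm B X = p.1)).card := by
    rw [card_product, card_powerset, card_erase_of_mem hiK, CC]
  rw [hcard]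
  refine card_le_card_of_injOn (fun q => (q.2 \ p.1) ∪ (bs B p ∪ q.1)) ?_ ?_
  · rintro ⟨L, X⟩ hq
    obtain ⟨hL, hX⟩ := mem_product.mp (mem_coe.mp hq)
    have hL' := mem_powerset.mp hL
    obtain ⟨hXS, hpm⟩ := mem_filter.mp hX
    have hXS' := mem_powerset.mp hXS
    simp only at hL' hXS' hpm ⊢
    have hTX : p.1 ⊆ X := hpm ▸ pm_sub
    have hLK : L ⊆ KK B p := hL'.trans (erase_subset _ _)
    have hLT : L ⊆ p.1.erase p.2 := hLK.trans hKT
    have hYX : (X \ p.1) ∪ (bs B p ∪ L) ⊆ X :=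
      union_subset sdiff_subset (union_subset ((hWT.trans (erase_subset _ _)).trans hTX)
        ((hLT.trans (erase_subset _ _)).trans hTX))
    have hiY : i ∉ (X \ p.1) ∪ (bs B p ∪ L) := by
      simp only [mem_union, mem_sdiff]
      rintro (h | h | h)
      · exact h.2 hiT
      · exact hiW h
      · exact notMem_erase i _ (hL' h)
    -- members inside `Y ∪ {i}` and inside `T` are inside `T - j`
    have key : ∀ w, w ∈ B → w ⊆ insert i ((X \ p.1) ∪ (bs B p ∪ L)) → w ⊆ bs B p := by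
      intro w hw hws
      have h1 : w ⊆ X := hws.trans (insert_subset (hTX hiT) hYX)
      have h2 : w ⊆ p.1 := hpm ▸ le_pm hw h1
      refine le_pm hw fun a ha => ?_
      have h3 := hws ha
      simp only [mem_insert, mem_union, mem_sdiff] at h3
      rcases h3 with h | h | h | h
      · exact h ▸ hiTe
      · exact absurd (h2 ha) h.2
      · exact hWT h
      · exact hLT h
    refine mem_coe.mpr (mem_filter.mpr ⟨mem_powerset.mpr ?_, ?_, ?_⟩)
    · intro a ha
      exact mem_erase.mpr ⟨fun h => hiY (h ▸ ha), hXS' (hYX ha)⟩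
    · intro T' hT' hiT' hT's
      have h1 : T' ∪ bs B p ∈ B := by
        rcases mem_union.mp hT' with h | h
        · exact hB _ h _ hb
        · exact hE _ h _ hb
      have h2 := key _ h1 (union_subset hT's
        ((subset_union_left.trans subset_union_right).trans (subset_insert _ _)))
      exact hiW (h2 (mem_union_left _ hiT'))
    · refine pm_eq hb (subset_union_left.trans subset_union_right) fun w hw hws => ?_
      exact key w hw (hws.trans (subset_insert _ _))
  · rintro ⟨L, X⟩ hq ⟨L', X'⟩ hq' h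
    obtain ⟨hL, hX⟩ := mem_product.mp (mem_coe.mp hq)
    obtain ⟨hL', hX'⟩ := mem_product.mp (mem_coe.mp hq')
    have hLs := mem_powerset.mp hL
    have hLs' := mem_powerset.mp hL'
    obtain ⟨-, hpm⟩ := mem_filter.mp hX
    obtain ⟨-, hpm'⟩ := mem_filter.mp hX'
    simp only at hLs hLs' hpm hpm' h
    have hTX : p.1 ⊆ X := hpm ▸ pm_sub
    have hTX' : p.1 ⊆ X' := hpm' ▸ pm_sub
    have hK1 : KK B p ⊆ p.1 := hKT.trans (erase_subset _ _)
    have hW1 : bs B p ⊆ p.1 := hWT.trans (erase_subset _ _)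
    have k1 : ∀ (Z M : Finset α), p.1 ⊆ Z → M ⊆ (KK B p).erase i →
        ((Z \ p.1) ∪ (bs B p ∪ M)) \ p.1 = Z \ p.1 := by
      intro Z M hZ hM
      ext a
      simp only [mem_sdiff, mem_union]
      constructor
      · rintro ⟨h1 | h1 | h1, h2⟩
        · exact h1
        · exact absurd (hW1 h1) h2
        · exact absurd (hK1 (mem_of_mem_erase (hM h1))) h2
      · rintro h1
        exact ⟨Or.inl h1, h1.2⟩
    have k2 : ∀ (Z M : Finset α), p.1 ⊆ Z → M ⊆ (KK B p).erase i →
        ((Z \ p.1) ∪ (bs B p ∪ M)) ∩ (KK B p) = M := by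
      intro Z M hZ hM
      ext a
      simp only [mem_inter, mem_union, mem_sdiff]
      constructor
      · rintro ⟨h1 | h1 | h1, h2⟩
        · exact absurd (hK1 h2) h1.2
        · exact absurd h1 (mem_sdiff.mp h2).2
        · exact h1
      · rintro h1
        exact ⟨Or.inr (Or.inr h1), mem_of_mem_erase (hM h1)⟩
    have eL : L = L' := by rw [← k2 X L hTX hLs, ← k2 X' L' hTX' hLs', h]
    have eX : X = X' := by
      rw [← sdiff_union_of_subset hTX, ← sdiff_union_of_subset hTX', ← k1 X L hTX hLs,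
        ← k1 X' L' hTX' hLs', h]
    rw [eL, eX]

end Pool.Agent.H78.UC
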