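import Pool.Agent.H78.UC.Gp
import Pool.Agent.H54.Iso

/-!
# MP_75f39d_co, T5* (note `/team-store/H78_T5star.md`): the per-point inequality and its sum
-/

set_option autoImplicit false

namespace Pool.Agent.H78.UC

open Finset

variable {α : Type*} [DecidableEq α]

/-- The inequality of (2) for all up-closed parts `F` of `N_i`. -/
def Hyp (B E : Finset (Finset α)) (S : Finset α) (i : α) : Prop :=
  ∀ F ⊆ Ni B i, (∀ w ∈ F, ∀ y ∈ Ni B i, w ⊆ y → y ∈ F) →
    (XF B E S i F).card ≤ ∑ Y ∈ XF B E S i F, (exs B E S i Y).card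

theorem sum_le_of_hyp {B E : Finset (Finset α)} {S : Finset α} {i : α} (hB : UnC B)
    (hE : ∀ T ∈ E, ∀ w ∈ B, T ∪ w ∈ B) (hi : i ∈ S) (h : Hyp B E S i)
    (F : Finset (Finset α)) (hF : F ⊆ Ni B i)
    (hup : ∀ w ∈ F, ∀ y ∈ Ni B i, w ⊆ y → y ∈ F) :
    ∑ W ∈ F, (cc B E S i W : ℝ) ≤ ∑ p ∈ Pi B S i with bs B p ∈ F, (CC B S p.1 : ℝ) := by
  have h1 := (card_XF hB hF hup).symm.le.trans ((h F hF hup).trans (sum_exits_le hB hE hi hF hup))
  exact_mod_cast h1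

/-- The per-point inequality with the exact fibre sizes. -/
theorem card_Ni_le {B E : Finset (Finset α)} {S : Finset α} {i : α} (hB : UnC B)
    (hBS : ∀ w ∈ B, w ⊆ S) (hE : ∀ T ∈ E, ∀ w ∈ B, T ∪ w ∈ B) (hi : i ∈ S) (h : Hyp B E S i) :
    ((Ni B i).card : ℝ) ≤
      ∑ p ∈ Pi B S i with bs B p ∈ Ni B i, (CC B S p.1 : ℝ) / cc B E S i (bs B p) := by
  have hpos : ∀ w ∈ Ni B i, (0:ℝ) < cc B E S i w := fun w hw => by
    exact_mod_cast cc_pos hB hBS hE hw
  have := layer (Ni B i) (Pi B S i) (bs B) (fun W => (cc B E S i W : ℝ))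
    (fun p => (CC B S p.1 : ℝ)) (sum_le_of_hyp hB hE hi h) (fun W => 1 / (cc B E S i W : ℝ))
    (fun w hw => by have := hpos w hw; positivity)
    (fun w hw y hy hwy => one_div_le_one_div_of_le (hpos y hy)
      (by exact_mod_cast cc_anti (mem_filter.mp hw).1 hwy))
  have e1 : ∑ W ∈ Ni B i, 1 / (cc B E S i W : ℝ) * (cc B E S i W : ℝ) = (Ni B i).card := by
    rw [sum_congr rfl fun W hW => one_div_mul_cancel (hpos W hW).ne']
    simp
  rw [e1] at this
  refine this.trans (le_of_eq (sum_congr rfl fun p _ => ?_))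
  ring

/-- The strict version. -/
theorem card_Ni_lt {B E : Finset (Finset α)} {S : Finset α} {i : α} (hB : UnC B)
    (hBS : ∀ w ∈ B, w ⊆ S) (hE : ∀ T ∈ E, ∀ w ∈ B, T ∪ w ∈ B) (hi : i ∈ S) (h : Hyp B E S i)
    (hN : (Ni B i).Nonempty)
    (hlt : (XF B E S i (Ni B i)).card < ∑ Y ∈ XF B E S i (Ni B i), (exs B E S i Y).card) :
    ((Ni B i).card : ℝ) <
      ∑ p ∈ Pi B S i with bs B p ∈ Ni B i, (CC B S p.1 : ℝ) / cc B E S i (bs B p) := by
  have hpos : ∀ w ∈ Ni B i, (0:ℝ) < cc B E S i w := fun w hw => by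
    exact_mod_cast cc_pos hB hBS hE hw
  have hlt' : ∑ W ∈ Ni B i, (cc B E S i W : ℝ) <
      ∑ p ∈ Pi B S i with bs B p ∈ Ni B i, (CC B S p.1 : ℝ) := by
    have hup : ∀ w ∈ Ni B i, ∀ y ∈ Ni B i, w ⊆ y → y ∈ Ni B i := fun _ _ _ hy _ => hy
    have h1 := lt_of_le_of_lt (card_XF (E := E) (S := S) hB (Subset.refl _) hup).symm.le
      (lt_of_lt_of_le hlt (sum_exits_le hB hE hi (Subset.refl _) hup))
    exact_mod_cast h1
  have := layer_lt (Ni B i) (Pi B S i) (bs B) (fun W => (cc B E S i W : ℝ))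
    (fun p => (CC B S p.1 : ℝ)) (sum_le_of_hyp hB hE hi h) hN hlt'
    (fun W => 1 / (cc B E S i W : ℝ))
    (fun w hw => by have := hpos w hw; positivity)
    (fun w hw y hy hwy => one_div_le_one_div_of_le (hpos y hy)
      (by exact_mod_cast cc_anti (mem_filter.mp hw).1 hwy))
  have e1 : ∑ W ∈ Ni B i, 1 / (cc B E S i W : ℝ) * (cc B E S i W : ℝ) = (Ni B i).card := by
    rw [sum_congr rfl fun W hW => one_div_mul_cancel (hpos W hW).ne']
    simp
  rw [e1] at this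
  refine lt_of_lt_of_le this (le_of_eq (sum_congr rfl fun p _ => ?_))
  ring

/-- Every term is at most `2 ^ (1 - |K|)`. -/
theorem term_le {B E : Finset (Finset α)} {S : Finset α} {i : α} (hB : UnC B)
    (hBS : ∀ w ∈ B, w ⊆ S) (hE : ∀ T ∈ E, ∀ w ∈ B, T ∪ w ∈ B) {p : Finset α × α}
    (hp : p ∈ Pi B S i) (hb : bs B p ∈ Ni B i) :
    (CC B S p.1 : ℝ) / cc B E S i (bs B p) ≤ (1 / 2) ^ ((KK B p).card - 1) := by
  have hc : (0:ℝ) < cc B E S i (bs B p) := by exact_mod_cast cc_pos hB hBS hE hb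
  have h1 : ((2:ℝ) ^ ((KK B p).card - 1)) * CC B S p.1 ≤ cc B E S i (bs B p) := by
    exact_mod_cast pow_mul_CC_le hB hE hp (mem_filter.mp hb).1
  rw [div_le_iff₀ hc, one_div, inv_pow, ← div_eq_inv_mul, le_div_iff₀ (by positivity)]
  linarith

/-- The per-point inequality `(G')`. -/
theorem card_Ni_le_pow {B E : Finset (Finset α)} {S : Finset α} {i : α} (hB : UnC B)
    (hBS : ∀ w ∈ B, w ⊆ S) (hE : ∀ T ∈ E, ∀ w ∈ B, T ∪ w ∈ B) (hi : i ∈ S) (h : Hyp B E S i) :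
    ((Ni B i).card : ℝ) ≤ ∑ p ∈ Pi B S i, (1 / 2 : ℝ) ^ ((KK B p).card - 1) := by
  refine (card_Ni_le hB hBS hE hi h).trans ?_
  refine (sum_le_sum fun p hp => term_le hB hBS hE (mem_filter.mp hp).1 (mem_filter.mp hp).2).trans ?_
  exact sum_le_sum_of_subset_of_nonneg (filter_subset _ _) fun _ _ _ => by positivity

theorem KK_sub {B : Finset (Finset α)} {S : Finset α} (hBS : ∀ w ∈ B, w ⊆ S)
    {p : Finset α × α} (hp : p ∈ bad B S) : KK B p ⊆ S :=
  (sdiff_subset.trans (erase_subset _ _)).trans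
    (hBS _ (mem_product.mp (mem_filter.mp hp).1).1)

theorem card_mul_pow_le (k : ℕ) : (k : ℝ) * (1 / 2) ^ (k - 1) ≤ 1 := by
  rcases k with _ | k
  · simp
  · simp only [Nat.add_sub_cancel]
    have h : ((k + 1 : ℕ) : ℝ) ≤ 2 ^ k := by
      exact_mod_cast Nat.lt_two_pow_self (n := k)
    rw [one_div, inv_pow, ← div_eq_mul_inv, div_le_one (by positivity)]
    exact h

/-- The sum over the points, exchanged. -/
theorem sum_Pi {B : Finset (Finset α)} {S : Finset α} (hBS : ∀ w ∈ B, w ⊆ S) :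
    ∑ i ∈ S, ∑ p ∈ Pi B S i, (1 / 2 : ℝ) ^ ((KK B p).card - 1) =
      ∑ p ∈ bad B S, ((KK B p).card : ℝ) * (1 / 2) ^ ((KK B p).card - 1) := by
  have h1 : ∀ i ∈ S, ∑ p ∈ Pi B S i, (1 / 2 : ℝ) ^ ((KK B p).card - 1) =
      ∑ p ∈ bad B S, if i ∈ KK B p then (1 / 2 : ℝ) ^ ((KK B p).card - 1) else 0 := by
    intro i _
    rw [Pi, sum_filter]
  rw [sum_congr rfl h1, sum_comm]
  refine sum_congr rfl fun p hp => ?_
  rw [← sum_filter, sum_const, nsmul_eq_mul]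
  congr 2
  refine congrArg card ?_
  ext a
  exact ⟨fun h => (mem_filter.mp h).2, fun h => mem_filter.mpr ⟨KK_sub hBS hp h, h⟩⟩

/-- The number of gaps is at most the number of bad pairs. -/
theorem sum_Ni_le {B E : Finset (Finset α)} {S : Finset α} (hB : UnC B)
    (hBS : ∀ w ∈ B, w ⊆ S) (hE : ∀ T ∈ E, ∀ w ∈ B, T ∪ w ∈ B) (h : ∀ i ∈ S, Hyp B E S i) :
    ∑ i ∈ S, (Ni B i).card ≤ (bad B S).card := by
  have h1 : ∑ i ∈ S, ((Ni B i).card : ℝ) ≤ (bad B S).card := by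
    refine (sum_le_sum fun i hi => card_Ni_le_pow hB hBS hE hi (h i hi)).trans ?_
    rw [sum_Pi hBS]
    refine (sum_le_sum fun p _ => card_mul_pow_le (KK B p).card).trans ?_
    simp
  exact_mod_cast h1

/-- (ISO) gives the hypothesis. -/
theorem hyp_of_card {B E : Finset (Finset α)} {S : Finset α} {i : α}
    (hE : ∀ T ∈ E, ∀ w ∈ B, T ∪ w ∈ B)
    (h : 3 * ((S.erase i).powerset.filter fun Y => ∀ T ∈ E, i ∈ T → ¬ T ⊆ insert i Y).card ≤
      2 * 2 ^ (S.erase i).card) : Hyp B E S i := by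
  classical
  intro F hF hup
  have hle : ((S.erase i).powerset.filter (DD B E i)).card ≤
      ((S.erase i).powerset.filter fun Y => ∀ T ∈ E, i ∈ T → ¬ T ⊆ insert i Y).card := by
    refine card_le_card fun Y hY => ?_
    obtain ⟨h1, h2⟩ := mem_filter.mp hY
    exact mem_filter.mpr ⟨h1, fun T hT => h2 T (mem_union_right _ hT)⟩
  have := H54.Iso.iso (S.erase i) (DD B E i) (fun Y => ∃ w ∈ F, w ⊆ Y)
    (fun Y Z _ hYZ hZ => hZ.anti hYZ) (fun Y Z _ hYZ ⟨w, hw, hwY⟩ => ⟨w, hw, hwY.trans hYZ⟩)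
    (by
      refine le_trans (Nat.mul_le_mul_left 3 ?_) h
      convert hle)
  rw [XF]
  convert this using 2 with Y hY
  · ext Y
    simp only [mem_filter]
  · ext Y
    simp only [mem_filter]
  · unfold exs
    congr 1
    ext j
    simp only [mem_filter]

end Pool.Agent.H78.UC
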