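import Mathlib

/-!
# MP_75f39d_co, T5* (note `/team-store/H78_T5star.md`): the layer cake step
-/

set_option autoImplicit false

namespace Pool.Agent.H78.UC

open Finset

variable {α ι : Type*} [DecidableEq α]

/-- If `∑ c` over every up-closed part `F` of `N` is at most the total weight of the indices with
base point in `F`, then the same holds with an increasing nonnegative weight. -/
theorem layer (N : Finset (Finset α)) (P : Finset ι) (b : ι → Finset α) (c : Finset α → ℝ)
    (C : ι → ℝ)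
    (hF : ∀ F ⊆ N, (∀ w ∈ F, ∀ y ∈ N, w ⊆ y → y ∈ F) →
      ∑ W ∈ F, c W ≤ ∑ p ∈ P with b p ∈ F, C p)
    (g : Finset α → ℝ) (hg0 : ∀ w ∈ N, 0 ≤ g w) (hg : ∀ w ∈ N, ∀ y ∈ N, w ⊆ y → g w ≤ g y) :
    ∑ W ∈ N, g W * c W ≤ ∑ p ∈ P with b p ∈ N, g (b p) * C p := by
  induction' hn : (N.filter (fun w => 0 < g w)).card using Nat.strong_induction_on with n ih
    generalizing g
  rcases (N.filter (fun w => 0 < g w)).eq_empty_or_nonempty with h | h
  · have h0 : ∀ w ∈ N, g w = 0 := by
      intro w hw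
      by_contra hne
      have : w ∈ N.filter (fun w => 0 < g w) :=
        mem_filter.mpr ⟨hw, lt_of_le_of_ne (hg0 w hw) (Ne.symm hne)⟩
      rw [h] at this
      exact notMem_empty _ this
    rw [sum_eq_zero (fun w hw => by rw [h0 w hw, zero_mul]),
      sum_eq_zero (fun p hp => by rw [h0 _ (mem_filter.mp hp).2, zero_mul])]
  · obtain ⟨w0, hw0, hmin⟩ := exists_min_image _ g h
    have hm : 0 < g w0 := (mem_filter.mp hw0).2
    set F := N.filter (fun w => 0 < g w) with hFdef
    have hFN : F ⊆ N := filter_subset _ _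
    have hFup : ∀ w ∈ F, ∀ y ∈ N, w ⊆ y → y ∈ F := by
      intro w hw y hy hwy
      exact mem_filter.mpr ⟨hy, lt_of_lt_of_le (mem_filter.mp hw).2 (hg w (hFN hw) y hy hwy)⟩
    set g' : Finset α → ℝ := fun w => g w - if w ∈ F then g w0 else 0 with hg'
    have hz : ∀ w ∈ N, w ∉ F → g w = 0 := by
      intro w hw hwF
      refine le_antisymm ?_ (hg0 w hw)
      by_contra hlt
      exact hwF (mem_filter.mpr ⟨hw, not_le.mp hlt⟩)
    have hg0' : ∀ w ∈ N, 0 ≤ g' w := by
      intro w hw
      by_cases hwF : w ∈ F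
      · simp only [hg', if_pos hwF]
        linarith [hmin w hwF]
      · simp only [hg', if_neg hwF]
        linarith [hg0 w hw]
    have hgm : ∀ w ∈ N, ∀ y ∈ N, w ⊆ y → g' w ≤ g' y := by
      intro w hw y hy hwy
      by_cases hwF : w ∈ F
      · have hyF := hFup w hwF y hy hwy
        simp only [hg', if_pos hwF, if_pos hyF]
        linarith [hg w hw y hy hwy]
      · have : g' w = 0 := by simp only [hg', if_neg hwF, hz w hw hwF, sub_zero]
        rw [this]
        exact hg0' y hy
    have hcard : (N.filter (fun w => 0 < g' w)).card < n := by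
      rw [← hn]
      refine card_lt_card ⟨?_, ?_⟩
      · intro w hw
        obtain ⟨hwN, hpos⟩ := mem_filter.mp hw
        by_contra hwF
        have : g' w = 0 := by simp only [hg', if_neg hwF, hz w hwN hwF, sub_zero]
        rw [this] at hpos
        exact lt_irrefl _ hpos
      · intro hsub
        have := (mem_filter.mp (hsub hw0)).2
        simp only [hg', if_pos hw0, sub_self, lt_irrefl] at this
    have hrec := ih _ hcard g' hg0' hgm rfl
    have e1 : ∑ W ∈ N, g W * c W = ∑ W ∈ N, g' W * c W + g w0 * ∑ W ∈ F, c W := by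
      have e0 : ∑ W ∈ F, c W = ∑ W ∈ N, if W ∈ F then c W else 0 := by
        rw [← sum_filter]
        refine sum_congr ?_ fun _ _ => rfl
        ext w
        exact ⟨fun h => mem_filter.mpr ⟨hFN h, h⟩, fun h => (mem_filter.mp h).2⟩
      rw [e0, mul_sum, ← sum_add_distrib]
      refine sum_congr rfl fun w _ => ?_
      by_cases hwF : w ∈ F
      · simp only [hg', if_pos hwF]; ring
      · simp only [hg', if_neg hwF]; ring
    have e2 : ∑ p ∈ P with b p ∈ N, g (b p) * C p =
        ∑ p ∈ P with b p ∈ N, g' (b p) * C p + g w0 * ∑ p ∈ P with b p ∈ F, C p := by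
      have e0 : ∑ p ∈ P with b p ∈ F, C p =
          ∑ p ∈ P.filter (fun p => b p ∈ N), if b p ∈ F then C p else 0 := by
        rw [← sum_filter, filter_filter]
        refine sum_congr ?_ fun _ _ => rfl
        ext p
        simp only [mem_filter]
        exact ⟨fun h => ⟨h.1, hFN h.2, h.2⟩, fun h => ⟨h.1, h.2.2⟩⟩
      rw [e0, mul_sum, ← sum_add_distrib]
      refine sum_congr rfl fun p _ => ?_
      by_cases hwF : b p ∈ F
      · simp only [hg', if_pos hwF]; ring
      · simp only [hg', if_neg hwF]; ring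
    rw [e1, e2]
    have := mul_le_mul_of_nonneg_left (hF F hFN hFup) hm.le
    linarith

/-- Strict version: positive weight and strict inequality for `N` itself. -/
theorem layer_lt (N : Finset (Finset α)) (P : Finset ι) (b : ι → Finset α) (c : Finset α → ℝ)
    (C : ι → ℝ)
    (hF : ∀ F ⊆ N, (∀ w ∈ F, ∀ y ∈ N, w ⊆ y → y ∈ F) →
      ∑ W ∈ F, c W ≤ ∑ p ∈ P with b p ∈ F, C p)
    (hN : N.Nonempty) (hlt : ∑ W ∈ N, c W < ∑ p ∈ P with b p ∈ N, C p)
    (g : Finset α → ℝ) (hg0 : ∀ w ∈ N, 0 < g w) (hg : ∀ w ∈ N, ∀ y ∈ N, w ⊆ y → g w ≤ g y) :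
    ∑ W ∈ N, g W * c W < ∑ p ∈ P with b p ∈ N, g (b p) * C p := by
  obtain ⟨w0, hw0, hmin⟩ := exists_min_image N g hN
  have h := layer N P b c C hF (fun w => g w - g w0) (fun w hw => sub_nonneg.mpr (hmin w hw))
    (fun w hw y hy hwy => by linarith [hg w hw y hy hwy])
  have e1 : ∑ W ∈ N, (g W - g w0) * c W = ∑ W ∈ N, g W * c W - g w0 * ∑ W ∈ N, c W := by
    rw [mul_sum, ← sum_sub_distrib]
    exact sum_congr rfl fun _ _ => by ring
  have e2 : ∑ p ∈ P with b p ∈ N, (g (b p) - g w0) * C p =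
      ∑ p ∈ P with b p ∈ N, g (b p) * C p - g w0 * ∑ p ∈ P with b p ∈ N, C p := by
    rw [mul_sum, ← sum_sub_distrib]
    exact sum_congr rfl fun _ _ => by ring
  rw [e1, e2] at h
  have := mul_lt_mul_of_pos_left hlt (hg0 w0 hw0)
  linarith

end Pool.Agent.H78.UC
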