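import Pool.Agent.H62.UC.TDefs
import Pool.Agent.H78.UC.La

/-!
# MP_75f39d_co, T5* (note `/team-store/H78_T5star.md`): the per-point inequality, weighted form
-/

set_option autoImplicit false

namespace Pool.Agent.H78.UC

open Finset Pool.Agent.H62.UC
open Pool.Agent.H51.UC (wP wB Down wmin_down)

variable {α : Type*} [DecidableEq α]

/-- The largest member inside `T ∖ {j}`. -/
def bw (B : Finset (Finset α)) (e : Finset α × α) : Finset α := lg B (e.1.erase e.2)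

/-- The sets `Y` such that the largest member inside `Y ∪ {i}` is in `F`. -/
def XW (B : Finset (Finset α)) (S : Finset α) (i : α) (F : Finset (Finset α)) :
    Finset (Finset α) :=
  (S.erase i).powerset.filter fun Y => lg B (insert i Y) ∈ F

theorem sum_le_of_inj {κ ι : Type*} [DecidableEq ι] {s : Finset κ} {t : Finset ι} (φ : κ → ι)
    (hm : ∀ x ∈ s, φ x ∈ t) (hi : ∀ x ∈ s, ∀ y ∈ s, φ x = φ y → x = y) {f : κ → ℝ} {g : ι → ℝ}
    (hf : ∀ x ∈ s, f x ≤ g (φ x)) (hg : ∀ y ∈ t, 0 ≤ g y) : ∑ x ∈ s, f x ≤ ∑ y ∈ t, g y := by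
  have h1 : ∑ y ∈ s.image φ, g y = ∑ x ∈ s, g (φ x) :=
    sum_image fun x hx y hy h => hi x hx y hy h
  calc ∑ x ∈ s, f x ≤ ∑ x ∈ s, g (φ x) := sum_le_sum hf
    _ = ∑ y ∈ s.image φ, g y := h1.symm
    _ ≤ ∑ y ∈ t, g y := sum_le_sum_of_subset_of_nonneg
        (image_subset_iff.mpr hm) fun y hy _ => hg y hy

theorem lg_eq {B : Finset (Finset α)} {X W : Finset α} (hW : W ∈ B) (hWX : W ⊆ X)
    (hmax : ∀ w ∈ B, w ⊆ X → w ⊆ W) : lg B X = W := by
  refine subset_antisymm ?_ (le_lg hW hWX)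
  unfold lg
  exact Finset.sup_le fun w hw => hmax w (mem_filter.mp hw).1 (mem_filter.mp hw).2

theorem mem_XW {B : Finset (Finset α)} {S : Finset α} {i : α} {F : Finset (Finset α)}
    {Y : Finset α} : Y ∈ XW B S i F ↔ Y ⊆ S.erase i ∧ lg B (insert i Y) ∈ F := by
  simp [XW]

theorem XW_sub {A B : Finset (Finset α)} {S : Finset α} {i : α}
    (hAB : ∀ T ∈ A, T ⊆ S → ∀ w ∈ B, T ∪ w ∈ B) (hi : i ∈ S)
    {F : Finset (Finset α)} (hF : F ⊆ Ns B i) : XW B S i F ⊆ Ds A S i := by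
  intro Y hY
  obtain ⟨hYS, hYF⟩ := mem_XW.mp hY
  obtain ⟨hW, hiW, -⟩ := mem_Ns.mp (hF hYF)
  refine mem_Ds.mpr ⟨hYS, ?_⟩
  rintro ⟨T, hT, hiT, hTY⟩
  have hTS : T ⊆ S := hTY.trans (insert_subset hi (hYS.trans (erase_subset _ _)))
  have h1 := hAB T hT hTS _ hW
  exact hiW (le_lg h1 (union_subset hTY (lg_sub _ _)) (mem_union_left _ hiT))

theorem wP_XW {B : Finset (Finset α)} {S : Finset α} {i : α} {p : α → ℝ}
    (F : Finset (Finset α)) :
    wP (S.erase i) p (XW B S i F) = ∑ W ∈ F, wP (S.erase i) p (fib B S i W) := by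
  unfold wP
  rw [← sum_fiberwise_of_maps_to (g := fun Y => lg B (insert i Y)) (t := F)
    (fun Y hY => (mem_XW.mp hY).2)]
  refine sum_congr rfl fun W hW => sum_congr ?_ fun _ _ => rfl
  ext Y
  rw [mem_filter, mem_XW, mem_fib]
  constructor
  · rintro ⟨⟨h1, _⟩, h3⟩
    exact ⟨h1, h3⟩
  · rintro ⟨h1, h3⟩
    exact ⟨⟨h1, h3 ▸ hW⟩, h3⟩

/-- What an exit looks like. -/
theorem exit_w {B : Finset (Finset α)} {S : Finset α} {i : α}
    (hB : ∀ s ∈ B, ∀ t ∈ B, s ∪ t ∈ B)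
    {F : Finset (Finset α)} (hF : F ⊆ Ns B i)
    (hup : ∀ w ∈ F, ∀ y ∈ Ns B i, w ⊆ y → y ∈ F) {Y : Finset α} (hY : Y ∈ XW B S i F)
    {j : α} (hjS : j ∈ S.erase i) (hjY : j ∉ Y) (hj : insert j Y ∉ XW B S i F) :
    (lg B (insert i (insert j Y)), j) ∈ Bp B S i ∧
      bw B (lg B (insert i (insert j Y)), j) ∈ F := by
  obtain ⟨hYS, hYF⟩ := mem_XW.mp hY
  obtain ⟨hW, hiW, hins⟩ := mem_Ns.mp (hF hYF)
  have hji : j ≠ i := ne_of_mem_erase hjS
  have hYX : insert i Y ⊆ insert i (insert j Y) := insert_subset_insert i (subset_insert j Y)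
  set W := lg B (insert i Y) with hWdef
  have hWs : W ⊆ insert i Y := lg_sub _ _
  have hWY : W ⊆ Y := by
    intro a ha
    rcases mem_insert.mp (hWs ha) with h | h
    · exact absurd (h ▸ ha) hiW
    · exact h
  set T := lg B (insert i (insert j Y)) with hT
  have hTB : T ∈ B := lg_mem hB hW (hWs.trans hYX)
  have hWT : W ⊆ T := le_lg hW (hWs.trans hYX)
  have hTX : T ⊆ insert i (insert j Y) := lg_sub _ _
  have hiT : i ∈ T := by
    by_contra hiT
    refine hj (mem_XW.mpr ⟨insert_subset hjS hYS, ?_⟩)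
    refine hup W hYF T (mem_Ns.mpr ⟨hTB, hiT, fun h => hiT ?_⟩) hWT
    exact le_lg h (insert_subset (mem_insert_self _ _) hTX) (mem_insert_self _ _)
  have hTe : T.erase j ⊆ insert i Y := by
    intro a ha
    have h1 := hTX (mem_of_mem_erase ha)
    have h2 := ne_of_mem_erase ha
    simp only [mem_insert] at h1 ⊢
    tauto
  have hjT : j ∈ T := by
    by_contra h
    rw [erase_eq_of_notMem h] at hTe
    exact hiW (le_lg hTB hTe hiT)
  have hieT : i ∈ T.erase j := mem_erase.mpr ⟨fun h => hji h.symm, hiT⟩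
  have hTeB : T.erase j ∉ B := fun h => hiW (le_lg h hTe hieT)
  have hbs : lg B (T.erase j) = W := by
    refine lg_eq hW ?_ ?_
    · intro a ha
      exact mem_erase.mpr ⟨fun h => hjY (h ▸ hWY ha), hWT ha⟩
    · intro w hw hwT
      exact le_lg hw (hwT.trans hTe)
  refine ⟨mem_Bp.mpr ⟨⟨hTB, mem_of_mem_erase hjS⟩, hjT, hTeB, hieT, ?_⟩, ?_⟩
  · show i ∉ lg B (T.erase j)
    rw [hbs]
    exact hiW
  · show lg B (T.erase j) ∈ F
    rw [hbs]
    exact hYF

/-- The boundary of the part over `F`. -/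
theorem wB_XW_le {B : Finset (Finset α)} {S : Finset α} {i : α}
    (hB : ∀ s ∈ B, ∀ t ∈ B, s ∪ t ∈ B) {p l : α → ℝ}
    (hp : ∀ j ∈ S.erase i, 0 < p j ∧ p j ≤ 1 / 2) (hl : ∀ j ∈ S.erase i, 0 ≤ l j)
    {F : Finset (Finset α)} (hF : F ⊆ Ns B i)
    (hup : ∀ w ∈ F, ∀ y ∈ Ns B i, w ⊆ y → y ∈ F) :
    wB (S.erase i) p l (XW B S i F) ≤
      ∑ e ∈ Bp B S i with bw B e ∈ F, l e.2 * wP (S.erase i) p (fib2 B S i e.2 e.1) := by
  have hp' : ∀ j ∈ S.erase i, 0 ≤ p j ∧ p j ≤ 1 := fun j hj => by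
    have := hp j hj
    exact ⟨this.1.le, by linarith [this.2]⟩
  unfold wB
  rw [sum_sigma' (XW B S i F) (fun Y => (S.erase i).filter fun j =>
    (j ∉ Y ∧ insert j Y ∉ XW B S i F)) (fun Y j => l j * pm (S.erase i) p Y)]
  rw [← sum_fiberwise_of_maps_to (g := fun q : (_ : Finset α) × α =>
    (lg B (insert i (insert q.2 q.1)), q.2)) (t := (Bp B S i).filter fun e => bw B e ∈ F)
    (by
      intro q hq
      obtain ⟨hY, hj⟩ := mem_sigma.mp hq
      obtain ⟨hjS, hjY, hj'⟩ := mem_filter.mp hj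
      exact mem_filter.mpr (exit_w hB hF hup hY hjS hjY hj'))]
  refine sum_le_sum fun e he => ?_
  have hle : 0 ≤ l e.2 := by
    obtain ⟨⟨_, h1⟩, _, _, h2, _⟩ := mem_Bp.mp (mem_filter.mp he).1
    exact hl _ (mem_erase.mpr ⟨(ne_of_mem_erase h2).symm, h1⟩)
  rw [wP, mul_sum]
  refine sum_le_of_inj (fun q => q.1) ?_ ?_ ?_ ?_
  · intro q hq
    obtain ⟨hq1, hq2⟩ := mem_filter.mp hq
    obtain ⟨hY, hj⟩ := mem_sigma.mp hq1
    obtain ⟨hjS, hjY, hj'⟩ := mem_filter.mp hj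
    rw [← hq2]
    exact mem_fib2.mpr ⟨(mem_XW.mp hY).1, hjY, rfl⟩
  · intro q hq q' hq' h
    have h1 := congrArg Prod.snd (mem_filter.mp hq).2
    have h2 := congrArg Prod.snd (mem_filter.mp hq').2
    exact Sigma.ext h (heq_of_eq ((show q.2 = e.2 from h1).trans (show q'.2 = e.2 from h2).symm))
  · intro q hq
    have h1 : q.2 = e.2 := congrArg Prod.snd (mem_filter.mp hq).2
    rw [h1]
  · intro Y hY
    exact mul_nonneg hle (pm_nonneg hp' (mem_fib2.mp hY).1)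

theorem fib_pos {B : Finset (Finset α)} {S : Finset α} {i : α}
    (hB : ∀ s ∈ B, ∀ t ∈ B, s ∪ t ∈ B) (hBS : ∀ w ∈ B, w ⊆ S) {p : α → ℝ}
    (hp : ∀ j ∈ S.erase i, 0 < p j ∧ p j ≤ 1 / 2) {W : Finset α} (hW : W ∈ Ns B i) :
    0 < wP (S.erase i) p (fib B S i W) := by
  obtain ⟨hWB, hiW, hins⟩ := mem_Ns.mp hW
  have hp' : ∀ j ∈ S.erase i, 0 < p j ∧ p j < 1 := fun j hj => by
    have := hp j hj
    exact ⟨this.1, by linarith [this.2]⟩
  refine sum_pos (fun Y hY => pm_pos hp' (mem_fib.mp hY).1) ⟨W, mem_fib.mpr ⟨?_, ?_⟩⟩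
  · exact fun a ha => mem_erase.mpr ⟨fun h => hiW (h ▸ ha), hBS W hWB ha⟩
  · refine lg_eq hWB (subset_insert i W) fun w hw hws => ?_
    by_contra hne
    have hiw : i ∈ w := by
      by_contra hiw
      refine hne fun a ha => ?_
      rcases mem_insert.mp (hws ha) with h | h
      · exact absurd (h ▸ ha) hiw
      · exact h
    have h2 : w ∪ W = insert i W :=
      subset_antisymm (union_subset hws (subset_insert _ _))
        (insert_subset (mem_union_left _ hiw) subset_union_right)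
    exact hins (h2 ▸ hB w hw W hWB)

theorem fib_anti {B : Finset (Finset α)} {S : Finset α} {i : α} {p : α → ℝ}
    (hp : ∀ j ∈ S.erase i, 0 < p j ∧ p j ≤ 1 / 2)
    {W W' : Finset α} (hW : W ∈ B) (hiW' : i ∉ W') (hWW : W ⊆ W') :
    wP (S.erase i) p (fib B S i W') ≤ wP (S.erase i) p (fib B S i W) := by
  have hd := pm_decr (V := S.erase i) (p := p) fun j hj => ⟨(hp j hj).1.le, (hp j hj).2⟩
  have hsub0 : ∀ Y ∈ fib B S i W', W' ⊆ Y := by
    intro Y hY a ha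
    obtain ⟨-, hlg⟩ := mem_fib.mp hY
    have h1 : a ∈ insert i Y := lg_sub B _ (hlg ▸ ha)
    rcases mem_insert.mp h1 with h | h
    · exact absurd (h ▸ ha) hiW'
    · exact h
  unfold wP
  refine sum_le_of_inj (fun Y => W ∪ (Y \ W')) ?_ ?_ ?_ ?_
  · intro Y hY
    obtain ⟨hYS, hlg⟩ := mem_fib.mp hY
    have hW'Y := hsub0 Y hY
    have hsub : W ∪ (Y \ W') ⊆ Y := union_subset (hWW.trans hW'Y) sdiff_subset
    refine mem_fib.mpr ⟨hsub.trans hYS, lg_eq hW (subset_union_left.trans (subset_insert _ _)) ?_⟩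
    intro w hw hws
    have h1 : w ⊆ W' := hlg ▸ le_lg hw (hws.trans (insert_subset_insert i hsub))
    intro a ha
    rcases mem_insert.mp (hws ha) with h | h
    · exact absurd (h1 (h ▸ ha)) hiW'
    · rcases mem_union.mp h with h | h
      · exact h
      · exact absurd (h1 ha) (mem_sdiff.mp h).2
  · intro Y hY Y' hY' h
    have key : ∀ Z : Finset α, (W ∪ (Z \ W')) \ W' = Z \ W' := by
      intro Z
      ext a
      simp only [mem_sdiff, mem_union]
      constructor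
      · rintro ⟨h1 | h1, h2⟩
        · exact absurd (hWW h1) h2
        · exact h1
      · rintro h1
        exact ⟨Or.inr h1, h1.2⟩
    have e : Y \ W' = Y' \ W' := by
      rw [← key Y, ← key Y']
      have h' : W ∪ (Y \ W') = W ∪ (Y' \ W') := h
      rw [h']
    rw [← sdiff_union_of_subset (hsub0 Y hY), ← sdiff_union_of_subset (hsub0 Y' hY'), e]
  · intro Y hY
    have hYS := (mem_fib.mp hY).1
    exact hd.2 Y hYS _ (union_subset (hWW.trans (hsub0 Y hY)) sdiff_subset)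
  · intro Y hY
    exact hd.1 Y (mem_fib.mp hY).1

/-- The fibre of `T` is at most `2 ^ (1 - |K|)` times the fibre of the base point. -/
theorem fib2_le {B : Finset (Finset α)} {S : Finset α} {i : α} {p : α → ℝ}
    (hp : ∀ j ∈ S.erase i, 0 < p j ∧ p j ≤ 1 / 2) {e : Finset α × α}
    (he : e ∈ Bp B S i) (hb : bw B e ∈ B) :
    wP (S.erase i) p (fib2 B S i e.2 e.1) ≤
      (1 / 2) ^ (kk B e) * wP (S.erase i) p (fib B S i (bw B e)) := by
  obtain ⟨T, j⟩ := e
  obtain ⟨⟨hTB, hjS⟩, hjT, hTe, hiTe, hiW⟩ := mem_Bp.mp he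
  simp only at hTB hjS hjT hTe hiTe hiW
  have hd := pm_decr (V := S.erase i) (p := p) fun j hj => ⟨(hp j hj).1.le, (hp j hj).2⟩
  set W := lg B (T.erase j) with hWdef
  have hbw : bw B (T, j) = W := rfl
  rw [hbw] at hb ⊢
  set K := T.erase j \ W with hK
  have hkk : kk B (T, j) = (K.erase i).card := by
    have hiK : i ∈ K := mem_sdiff.mpr ⟨hiTe, hiW⟩
    rw [card_erase_of_mem hiK]
    rfl
  have hiT : i ∈ T := mem_of_mem_erase hiTe
  have hWT : W ⊆ T.erase j := lg_sub _ _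
  have hKT : K ⊆ T.erase j := sdiff_subset
  -- the points of `T` other than `i`, `j` are in `Y`
  have hTY : ∀ Y ∈ fib2 B S i j T, ∀ a ∈ T.erase j, a ≠ i → a ∈ Y := by
    intro Y hY a ha hai
    obtain ⟨-, -, hlg⟩ := mem_fib2.mp hY
    have h1 : a ∈ insert i (insert j Y) := lg_sub B _ (hlg ▸ mem_of_mem_erase ha)
    simp only [mem_insert] at h1
    rcases h1 with h | h | h
    · exact absurd h hai
    · exact absurd h (ne_of_mem_erase ha)
    · exact h
  have hsub : ∀ Y ∈ fib2 B S i j T, ∀ L ⊆ K.erase i, (Y \ T) ∪ (W ∪ L) ⊆ Y := by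
    intro Y hY L hL
    refine union_subset sdiff_subset (union_subset ?_ ?_)
    · exact fun a ha => hTY Y hY a (hWT ha) fun h => hiW (h ▸ ha)
    · exact fun a ha => hTY Y hY a (hKT (mem_of_mem_erase (hL ha))) (ne_of_mem_erase (hL ha))
  have hcard : (2:ℝ) ^ (K.erase i).card * wP (S.erase i) p (fib2 B S i j T) =
      ∑ q ∈ (K.erase i).powerset ×ˢ fib2 B S i j T, pm (S.erase i) p q.2 := by
    rw [sum_product]
    simp only
    rw [sum_const, card_powerset, nsmul_eq_mul, wP]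
    push_cast
    rfl
  have hmain : (2:ℝ) ^ (K.erase i).card * wP (S.erase i) p (fib2 B S i j T) ≤
      wP (S.erase i) p (fib B S i W) := by
    rw [hcard, wP]
    refine sum_le_of_inj (fun q => (q.2 \ T) ∪ (W ∪ q.1)) ?_ ?_ ?_ ?_
    · rintro ⟨L, Y⟩ hq
      obtain ⟨hL, hY⟩ := mem_product.mp hq
      have hL' := mem_powerset.mp hL
      simp only at hL' hY ⊢
      obtain ⟨hYS, hjY, hlg⟩ := mem_fib2.mp hY
      have hs := hsub Y hY L hL'
      refine mem_fib.mpr ⟨hs.trans hYS, lg_eq hb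
        ((subset_union_left.trans subset_union_right).trans (subset_insert _ _)) ?_⟩
      intro w hw hws
      have h1 : w ⊆ insert i (insert j Y) :=
        hws.trans (insert_subset_insert i (hs.trans (subset_insert _ _)))
      have h2 : w ⊆ T := hlg ▸ le_lg hw h1
      refine le_lg hw fun a ha => ?_
      have h3 := hws ha
      simp only [mem_insert, mem_union, mem_sdiff] at h3
      rcases h3 with h | h | h | h
      · exact h ▸ hiTe
      · exact absurd (h2 ha) h.2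
      · exact hWT h
      · exact hKT (mem_of_mem_erase (hL' h))
    · rintro ⟨L, Y⟩ hq ⟨L', Y'⟩ hq' h
      obtain ⟨hL, hY⟩ := mem_product.mp hq
      obtain ⟨hL', hY'⟩ := mem_product.mp hq'
      have hLs := mem_powerset.mp hL
      have hLs' := mem_powerset.mp hL'
      simp only at hLs hLs' hY hY' h
      have k1 : ∀ Z M : Finset α, M ⊆ K.erase i → ((Z \ T) ∪ (W ∪ M)) \ T = Z \ T := by
        intro Z M hM
        ext a
        simp only [mem_sdiff, mem_union]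
        constructor
        · rintro ⟨h1 | h1 | h1, h2⟩
          · exact h1
          · exact absurd (mem_of_mem_erase (hWT h1)) h2
          · exact absurd (mem_of_mem_erase (hKT (mem_of_mem_erase (hM h1)))) h2
        · rintro h1
          exact ⟨Or.inl h1, h1.2⟩
      have k2 : ∀ Z M : Finset α, M ⊆ K.erase i → ((Z \ T) ∪ (W ∪ M)) ∩ K = M := by
        intro Z M hM
        ext a
        simp only [mem_inter, mem_union, mem_sdiff]
        constructor
        · rintro ⟨h1 | h1 | h1, h2⟩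
          · exact absurd (mem_of_mem_erase (hKT h2)) h1.2
          · exact absurd h1 (mem_sdiff.mp h2).2
          · exact h1
        · rintro h1
          exact ⟨Or.inr (Or.inr h1), mem_of_mem_erase (hM h1)⟩
      have k3 : ∀ Z ∈ fib2 B S i j T, Z = (Z \ T) ∪ ((T.erase j).erase i) := by
        intro Z hZ
        obtain ⟨hZS, hjZ, hlg⟩ := mem_fib2.mp hZ
        ext a
        simp only [mem_union, mem_sdiff]
        constructor
        · intro h1
          by_cases h2 : a ∈ T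
          · right
            refine mem_erase.mpr ⟨fun h => ?_, mem_erase.mpr ⟨fun h => hjZ (h ▸ h1), h2⟩⟩
            exact notMem_erase i S (hZS (h ▸ h1))
          · exact Or.inl ⟨h1, h2⟩
        · rintro (h1 | h1)
          · exact h1.1
          · exact hTY Z hZ a (mem_of_mem_erase h1) (ne_of_mem_erase h1)
      have eL : L = L' := by rw [← k2 Y L hLs, ← k2 Y' L' hLs', h]
      have eY : Y = Y' := by
        rw [k3 Y hY, k3 Y' hY', ← k1 Y L hLs, ← k1 Y' L' hLs', h]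
      rw [eL, eY]
    · rintro ⟨L, Y⟩ hq
      obtain ⟨hL, hY⟩ := mem_product.mp hq
      exact hd.2 Y (mem_fib2.mp hY).1 _ (hsub Y hY L (mem_powerset.mp hL))
    · intro Y hY
      exact hd.1 Y (mem_fib.mp hY).1
  rw [hkk, one_div, inv_pow, ← div_eq_inv_mul, le_div_iff₀ (by positivity), mul_comm]
  exact hmain

/-- The hypothesis of the layer cake step. -/
theorem sum_F_le {A B : Finset (Finset α)} {S : Finset α} {i : α}
    (hB : ∀ s ∈ B, ∀ t ∈ B, s ∪ t ∈ B)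
    (hAB : ∀ T ∈ A, T ⊆ S → ∀ w ∈ B, T ∪ w ∈ B) (hi : i ∈ S) {p l : α → ℝ}
    (hp : ∀ j ∈ S.erase i, 0 < p j ∧ p j ≤ 1 / 2) (hl : ∀ j ∈ S.erase i, 0 ≤ l j) {L : ℝ}
    (hL : Adm (S.erase i) p l (Ds A S i) L)
    (F : Finset (Finset α)) (hF : F ⊆ Ns B i)
    (hup : ∀ w ∈ F, ∀ y ∈ Ns B i, w ⊆ y → y ∈ F) :
    ∑ W ∈ F, L * wP (S.erase i) p (fib B S i W) ≤
      ∑ e ∈ Bp B S i with bw B e ∈ F, l e.2 * wP (S.erase i) p (fib2 B S i e.2 e.1) := by
  have hD : Ds A S i ⊆ (S.erase i).powerset := filter_subset _ _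
  have h1 := wmin_down (fun j hj => ⟨(hp j hj).1, by linarith [(hp j hj).2]⟩) hl hD (Ds_dn A S i) hL
    (XW_sub hAB hi hF)
  rw [← mul_sum, ← wP_XW]
  exact h1.trans (wB_XW_le hB hp hl hF hup)

/-- The per-point inequality with the masses of the fibres. -/
theorem gw_aux {A B : Finset (Finset α)} {S : Finset α} {i : α}
    (hB : ∀ s ∈ B, ∀ t ∈ B, s ∪ t ∈ B) (hBS : ∀ w ∈ B, w ⊆ S)
    (hAB : ∀ T ∈ A, T ⊆ S → ∀ w ∈ B, T ∪ w ∈ B) (hi : i ∈ S) {p l : α → ℝ}
    (hp : ∀ j ∈ S.erase i, 0 < p j ∧ p j ≤ 1 / 2) (hl : ∀ j ∈ S.erase i, 0 ≤ l j) {L : ℝ}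
    (hL : Adm (S.erase i) p l (Ds A S i) L) :
    L * ((Ns B i).card : ℝ) ≤ ∑ e ∈ Bp B S i with bw B e ∈ Ns B i,
      l e.2 * (wP (S.erase i) p (fib2 B S i e.2 e.1) / wP (S.erase i) p (fib B S i (bw B e))) := by
  have hpos : ∀ w ∈ Ns B i, 0 < wP (S.erase i) p (fib B S i w) := fun w hw =>
    fib_pos hB hBS hp hw
  have := layer (Ns B i) (Bp B S i) (bw B) (fun W => L * wP (S.erase i) p (fib B S i W))
    (fun e => l e.2 * wP (S.erase i) p (fib2 B S i e.2 e.1))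
    (sum_F_le hB hAB hi hp hl hL) (fun W => 1 / wP (S.erase i) p (fib B S i W))
    (fun w hw => by have := hpos w hw; positivity)
    (fun w hw y hy hwy => one_div_le_one_div_of_le (hpos y hy)
      (fib_anti hp (mem_Ns.mp hw).1 (mem_Ns.mp hy).2.1 hwy))
  have e1 : ∑ W ∈ Ns B i, 1 / wP (S.erase i) p (fib B S i W) *
      (L * wP (S.erase i) p (fib B S i W)) = L * (Ns B i).card := by
    rw [sum_congr rfl fun W hW => show 1 / wP (S.erase i) p (fib B S i W) *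
      (L * wP (S.erase i) p (fib B S i W)) = L by
        have := (hpos W hW).ne'
        field_simp]
    rw [sum_const, nsmul_eq_mul, mul_comm]
  rw [e1] at this
  refine this.trans (le_of_eq (sum_congr rfl fun p _ => ?_))
  ring

/-- Every term is at most `l j * 2 ^ (1 - |K|)`. -/
theorem gw_term {B : Finset (Finset α)} {S : Finset α} {i : α}
    (hB : ∀ s ∈ B, ∀ t ∈ B, s ∪ t ∈ B) (hBS : ∀ w ∈ B, w ⊆ S) {p l : α → ℝ}
    (hp : ∀ j ∈ S.erase i, 0 < p j ∧ p j ≤ 1 / 2) (hl : ∀ j ∈ S.erase i, 0 ≤ l j)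
    {e : Finset α × α} (he : e ∈ Bp B S i) (hb : bw B e ∈ Ns B i) :
    l e.2 * (wP (S.erase i) p (fib2 B S i e.2 e.1) / wP (S.erase i) p (fib B S i (bw B e))) ≤
      l e.2 * (1 / 2 : ℝ) ^ (kk B e) := by
  have hle : 0 ≤ l e.2 := by
    obtain ⟨⟨_, h1⟩, _, _, h2, _⟩ := mem_Bp.mp he
    exact hl _ (mem_erase.mpr ⟨(ne_of_mem_erase h2).symm, h1⟩)
  refine mul_le_mul_of_nonneg_left ?_ hle
  rw [div_le_iff₀ (fib_pos hB hBS hp hb)]
  exact fib2_le hp he (mem_Ns.mp hb).1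

theorem term_nonneg {B : Finset (Finset α)} {S : Finset α} {i : α} {l : α → ℝ}
    (hl : ∀ j ∈ S.erase i, 0 ≤ l j) {e : Finset α × α} (he : e ∈ Bp B S i) :
    0 ≤ l e.2 * (1 / 2 : ℝ) ^ (kk B e) := by
  have hle : 0 ≤ l e.2 := by
    obtain ⟨⟨_, h1⟩, _, _, h2, _⟩ := mem_Bp.mp he
    exact hl _ (mem_erase.mpr ⟨(ne_of_mem_erase h2).symm, h1⟩)
  positivity

/-- The per-point inequality `(G')`, weighted form. -/
theorem gw {A B : Finset (Finset α)} {S : Finset α} {i : α}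
    (hB : ∀ s ∈ B, ∀ t ∈ B, s ∪ t ∈ B) (hBS : ∀ w ∈ B, w ⊆ S)
    (hAB : ∀ T ∈ A, T ⊆ S → ∀ w ∈ B, T ∪ w ∈ B) (hi : i ∈ S) {p l : α → ℝ}
    (hp : ∀ j ∈ S.erase i, 0 < p j ∧ p j ≤ 1 / 2) (hl : ∀ j ∈ S.erase i, 0 ≤ l j) {L : ℝ}
    (hL : Adm (S.erase i) p l (Ds A S i) L) :
    L * ((Ns B i).card : ℝ) ≤ ∑ e ∈ Bp B S i, l e.2 * (1 / 2 : ℝ) ^ (kk B e) := by
  refine (gw_aux hB hBS hAB hi hp hl hL).trans ?_
  refine (sum_le_sum fun e he => gw_term hB hBS hp hl (mem_filter.mp he).1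
    (mem_filter.mp he).2).trans ?_
  exact sum_le_sum_of_subset_of_nonneg (filter_subset _ _) fun e he _ => term_nonneg hl he

/-- The base point of a pair is in `N_i` if it is a member. -/
theorem bw_mem_Ns {B : Finset (Finset α)} {S : Finset α} {i : α} {e : Finset α × α}
    (he : e ∈ Bp B S i) (hW : bw B e ∈ B) : bw B e ∈ Ns B i := by
  obtain ⟨_, _, _, h2, h3⟩ := mem_Bp.mp he
  refine mem_Ns.mpr ⟨hW, h3, fun h => h3 ?_⟩
  exact le_lg h (insert_subset h2 (lg_sub _ _)) (mem_insert_self _ _)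

/-- Strict version. -/
theorem gw_lt {A B : Finset (Finset α)} {S : Finset α} {i : α}
    (hB : ∀ s ∈ B, ∀ t ∈ B, s ∪ t ∈ B) (hBS : ∀ w ∈ B, w ⊆ S)
    (hAB : ∀ T ∈ A, T ⊆ S → ∀ w ∈ B, T ∪ w ∈ B) (hi : i ∈ S) {p l : α → ℝ}
    (hp : ∀ j ∈ S.erase i, 0 < p j ∧ p j ≤ 1 / 2) (hl : ∀ j ∈ S.erase i, 0 ≤ l j) {L : ℝ}
    (hL : Adm (S.erase i) p l (Ds A S i) L) {e0 : Finset α × α} (he0 : e0 ∈ Bp B S i)
    (hl0 : 0 < l e0.2) (hW : lg B (e0.1.erase e0.2) ∈ B)
    (hs : wP (S.erase i) p (fib2 B S i e0.2 e0.1) <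
      (1 / 2 : ℝ) ^ (kk B e0) * wP (S.erase i) p (fib B S i (lg B (e0.1.erase e0.2)))) :
    L * ((Ns B i).card : ℝ) < ∑ e ∈ Bp B S i, l e.2 * (1 / 2 : ℝ) ^ (kk B e) := by
  have hN := bw_mem_Ns he0 hW
  refine lt_of_le_of_lt (gw_aux hB hBS hAB hi hp hl hL) ?_
  refine lt_of_lt_of_le (sum_lt_sum (fun e he => gw_term hB hBS hp hl (mem_filter.mp he).1
    (mem_filter.mp he).2) ⟨e0, mem_filter.mpr ⟨he0, hN⟩, ?_⟩) ?_
  · refine mul_lt_mul_of_pos_left ?_ hl0
    rw [div_lt_iff₀ (fib_pos hB hBS hp hN)]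
    exact hs
  · exact sum_le_sum_of_subset_of_nonneg (filter_subset _ _) fun e he _ => term_nonneg hl he

end Pool.Agent.H78.UC
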